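import Mathlib

/-! Large idempotents of a real group algebra on which `(1 - x) y` is nilpotent. -/

namespace Pool.Agent.P.MP_ae6ac5_an.FG

open MonoidAlgebra
open scoped Classical

variable {Q Q' : Type} [Group Q] [Group Q']

/-- the conjugates of `x` by the powers of `y` -/
def xs (x y : Q) (j : ℕ) : Q := y ^ j * x * (y ^ j)⁻¹

/-- elements that commute with all conjugates and are fixed by one of them -/
def Pc (x y : Q) : Set (MonoidAlgebra ℝ Q) :=
  {M | (∀ k, Commute (single (xs x y k) 1) M) ∧ ∃ j, single (xs x y j) 1 * M = M}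

/-- there is an idempotent of trace at least `β` that is a sum of such elements -/
def Bad (x y : Q) (β : ℝ) : Prop :=
  ∃ E : MonoidAlgebra ℝ Q, E * E = E ∧ β ≤ E.coeff 1 ∧ E ∈ AddSubgroup.closure (Pc x y)

theorem Bad.mono {x y : Q} {β β' : ℝ} (h : Bad x y β) (hβ : β' ≤ β) : Bad x y β' :=
  let ⟨E, h1, h2, h3⟩ := h
  ⟨E, h1, hβ.trans h2, h3⟩

theorem xs_mod {x y : Q} {n : ℕ} (h : y ^ n = 1) (j : ℕ) : xs x y (j % n) = xs x y j := by
  rw [xs, xs, ← pow_eq_pow_mod j h]

theorem map_xs (f : Q →* Q') (x y : Q) (j : ℕ) : f (xs x y j) = xs (f x) (f y) j := by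
  simp [xs]

theorem pow_step (x y : Q) (k : ℕ) :
    single (y ^ k) (1 : ℝ) * ((1 - single x 1) * single y 1) =
      (1 - single (xs x y k) 1) * single (y ^ (k + 1)) 1 := by
  simp only [mul_sub, sub_mul, one_mul, single_mul_single, xs, pow_succ, mul_assoc,
    inv_mul_cancel_left]

theorem nil_aux {x y : Q} {M : MonoidAlgebra ℝ Q} (hM : ∀ k, Commute (single (xs x y k) 1) M)
    {j : ℕ} (hj : single (xs x y j) 1 * M = M) (k : ℕ) :
    ∃ P : MonoidAlgebra ℝ Q, ((1 - single x 1) * single y 1) ^ k = P * single (y ^ k) 1 ∧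
      Commute P M ∧ (j < k → P * M = 0) := by
  induction k with
  | zero => exact ⟨1, by simp [one_def], Commute.one_left _, by simp⟩
  | succ k ih =>
    obtain ⟨P, h1, h2, h3⟩ := ih
    have hc : Commute (1 - single (xs x y k) 1) M := (Commute.one_left _).sub_left (hM k)
    refine ⟨P * (1 - single (xs x y k) 1), ?_, h2.mul_left hc, fun h => ?_⟩
    · rw [pow_succ, h1, mul_assoc, pow_step, mul_assoc]
    · rcases Nat.lt_succ_iff_lt_or_eq.1 h with h | rfl
      · rw [mul_assoc, hc.eq, ← mul_assoc, h3 h, zero_mul]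
      · rw [mul_assoc, sub_mul, one_mul, hj, sub_self, mul_zero]

theorem nil {x y : Q} {n : ℕ} (hn : 0 < n) (h : y ^ n = 1) {E : MonoidAlgebra ℝ Q}
    (hE : E ∈ AddSubgroup.closure (Pc x y)) : ((1 - single x 1) * single y 1) ^ n * E = 0 := by
  induction hE using AddSubgroup.closure_induction with
  | mem M hM =>
    obtain ⟨h1, j, h2⟩ := hM
    rw [← xs_mod h] at h2
    obtain ⟨P, e1, -, e3⟩ := nil_aux h1 h2 n
    rw [e1, h, ← one_def, mul_one, e3 (Nat.mod_lt _ hn)]
  | zero => simp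
  | add a b _ _ ha hb => rw [mul_add, ha, hb, add_zero]
  | neg a _ ha => rw [mul_neg, ha, neg_zero]

/-- elements supported in a subgroup -/
def Sp (H : Subgroup Q) (u : MonoidAlgebra ℝ Q) : Prop := ∀ g, g ∉ H → u.coeff g = 0

theorem Sp.mono {H K : Subgroup Q} {u : MonoidAlgebra ℝ Q} (h : Sp H u) (hK : H ≤ K) : Sp K u :=
  fun g hg => h g fun h' => hg (hK h')

theorem Sp.one (H : Subgroup Q) : Sp H 1 := fun g hg => by
  rw [one_def, coeff_single, Finsupp.single_eq_of_ne]
  rintro rfl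
  exact hg H.one_mem

theorem Sp.sub {H : Subgroup Q} {u v : MonoidAlgebra ℝ Q} (h : Sp H u) (h' : Sp H v) :
    Sp H (u - v) := fun g hg => by simp [h g hg, h' g hg]

theorem Sp.mul {H : Subgroup Q} {u v : MonoidAlgebra ℝ Q} (h : Sp H u) (h' : Sp H v) :
    Sp H (u * v) := fun g hg => by
  rw [coeff_mul_apply_left, Finsupp.sum]
  refine Finset.sum_eq_zero fun a _ => ?_
  by_cases ha : a ∈ H
  · rw [h' (a⁻¹ * g) fun h2 => hg (by simpa using H.mul_mem ha h2), mul_zero]
  · rw [h a ha, zero_mul]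

theorem Sp.coeff_one {H K : Subgroup Q} {u v : MonoidAlgebra ℝ Q} (h : Sp H u) (h' : Sp K v)
    (hd : ∀ g ∈ H, g ∈ K → g = 1) : (u * v).coeff 1 = u.coeff 1 * v.coeff 1 := by
  rw [coeff_mul_apply_left, Finsupp.sum, Finset.sum_eq_single 1]
  · simp
  · intro a _ ha
    by_cases h1 : a ∈ H
    · rw [h' _ fun h2 => ha (hd a h1 (by simpa using h2)), mul_zero]
    · rw [h a h1, zero_mul]
  · intro h1
    rw [Finsupp.notMem_support_iff.1 h1, zero_mul]

theorem sp_map (f : Q →* Q') (u : MonoidAlgebra ℝ Q) : Sp f.range (mapDomainRingHom ℝ f u) :=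
  fun _ hg => Finsupp.mapDomain_of_notMem_range _ _ hg

theorem coeff_map_one {f : Q →* Q'} (hf : Function.Injective f) (u : MonoidAlgebra ℝ Q) :
    (mapDomainRingHom ℝ f u).coeff 1 = u.coeff 1 := by
  rw [← map_one f]
  exact Finsupp.mapDomain_apply hf _ _

theorem map_sing (f : Q →* Q') (g : Q) : mapDomainRingHom ℝ f (single g 1) = single (f g) 1 :=
  mapDomain_single

theorem Bad.map {x y : Q} {β : ℝ} (h : Bad x y β) {f : Q →* Q'} (hf : Function.Injective f) :
    Bad (f x) (f y) β := by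
  obtain ⟨E, h1, h2, h3⟩ := h
  refine ⟨mapDomainRingHom ℝ f E, by rw [← map_mul, h1], by rwa [coeff_map_one hf], ?_⟩
  clear h1 h2
  induction h3 using AddSubgroup.closure_induction with
  | mem M hM =>
    obtain ⟨e1, j, e2⟩ := hM
    refine AddSubgroup.subset_closure ⟨fun k => ?_, j, ?_⟩
    · rw [← map_xs, ← map_sing]
      exact (e1 k).map _
    · rw [← map_xs, ← map_sing, ← map_mul, e2]
  | zero => simp
  | add a b _ _ ha hb => rw [map_add]; exact add_mem ha hb
  | neg a _ ha => rw [map_neg]; exact neg_mem ha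

theorem comm_lr (u : MonoidAlgebra ℝ Q) (v : MonoidAlgebra ℝ Q') :
    Commute (mapDomainRingHom ℝ (MonoidHom.inl Q Q') u)
      (mapDomainRingHom ℝ (MonoidHom.inr Q Q') v) := by
  induction u using induction_linear with
  | zero => simp
  | add a b ha hb => rw [map_add]; exact ha.add_left hb
  | single g r =>
    induction v using induction_linear with
    | zero => simp
    | add a b ha hb => rw [map_add]; exact ha.add_right hb
    | single g' r' =>
      simp only [mapDomainRingHom_apply, mapDomain_single]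
      exact single_commute_single (MonoidHom.commute_inl_inr g g') (Commute.all _ _)

/-- the product of an element of the left factor and an element of the right factor -/
noncomputable def tn (u : MonoidAlgebra ℝ Q) (v : MonoidAlgebra ℝ Q') :
    MonoidAlgebra ℝ (Q × Q') :=
  mapDomainRingHom ℝ (MonoidHom.inl Q Q') u * mapDomainRingHom ℝ (MonoidHom.inr Q Q') v

theorem tn_mul (u u' : MonoidAlgebra ℝ Q) (v v' : MonoidAlgebra ℝ Q') :
    tn u v * tn u' v' = tn (u * u') (v * v') := by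
  rw [tn, tn, tn, map_mul, map_mul, (comm_lr u' v).symm.mul_mul_mul_comm]

theorem tn_xs (x y : Q) (x' y' : Q') (k : ℕ) :
    single (xs (x, x') (y, y') k) (1 : ℝ) = tn (single (xs x y k) 1) (single (xs x' y' k) 1) := by
  rw [tn, map_sing, map_sing, single_mul_single]
  simp [xs]

theorem Bad.prod {x y : Q} {x' y' : Q'} {β β' : ℝ} {n n' : ℕ} (h : Bad x y β)
    (h' : Bad x' y' β') (hβ : 0 ≤ β) (hβ' : 0 ≤ β') (hn : y ^ n = 1) (hn' : y' ^ n' = 1)
    (hc : n.Coprime n') : Bad (x, x') (y, y') (β * β') := by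
  obtain ⟨E, h1, h2, h3⟩ := h
  obtain ⟨E', h1', h2', h3'⟩ := h'
  refine ⟨tn E E', by rw [tn_mul, h1, h1'], ?_, ?_⟩
  · rw [tn, (sp_map _ E).coeff_one (sp_map _ E'), coeff_map_one, coeff_map_one]
    · exact mul_le_mul h2 h2' hβ' (hβ.trans h2)
    · exact fun a b e => congrArg Prod.snd e
    · exact fun a b e => congrArg Prod.fst e
    · rintro _ ⟨a, rfl⟩ ⟨b, e⟩
      exact Prod.ext (congrArg Prod.fst e).symm rfl
  · clear h1 h2 h1' h2'
    induction h3 using AddSubgroup.closure_induction with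
    | mem M hM =>
      induction h3' using AddSubgroup.closure_induction with
      | mem M' hM' =>
        obtain ⟨e1, j, e2⟩ := hM
        obtain ⟨e1', j', e2'⟩ := hM'
        obtain ⟨k, k1, k2⟩ := Nat.chineseRemainder hc j j'
        refine AddSubgroup.subset_closure ⟨fun k => ?_, k, ?_⟩
        · rw [tn_xs, Commute, SemiconjBy, tn_mul, tn_mul, (e1 k).eq, (e1' k).eq]
        · rw [tn_xs, tn_mul, ← xs_mod hn, ← xs_mod hn', k1, k2, xs_mod hn, xs_mod hn', e2, e2']
      | zero => simp [tn]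
      | add a b _ _ ha hb => rw [tn, map_add, mul_add]; exact add_mem ha hb
      | neg a _ ha => rw [tn, map_neg, mul_neg]; exact neg_mem ha
    | zero => simp [tn]
    | add a b _ _ ha hb => rw [tn, map_add, add_mul]; exact add_mem ha hb
    | neg a _ ha => rw [tn, map_neg, neg_mul]; exact neg_mem ha

variable [Finite Q]

/-- the averaging idempotent of a subgroup -/
noncomputable def av (U : Subgroup Q) : MonoidAlgebra ℝ Q :=
  .ofCoeff (Finsupp.equivFunOnFinite.symm fun g => if g ∈ U then (Nat.card U : ℝ)⁻¹ else 0)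

theorem av_coeff (U : Subgroup Q) (g : Q) :
    (av U).coeff g = if g ∈ U then (Nat.card U : ℝ)⁻¹ else 0 := rfl

theorem sp_av (U : Subgroup Q) : Sp U (av U) := fun g hg => by rw [av_coeff, if_neg hg]

theorem single_av {U : Subgroup Q} {g : Q} (hg : g ∈ U) : single g 1 * av U = av U := by
  ext h
  rw [coeff_single_mul_apply, one_mul, av_coeff, av_coeff,
    if_congr (U.mul_mem_cancel_left (U.inv_mem hg)) rfl rfl]

theorem comm_av {R U : Subgroup Q} (hU : ∀ g ∈ R, ∀ h ∈ U, g * h * g⁻¹ ∈ U)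
    {u : MonoidAlgebra ℝ Q} (hu : Sp R u) : Commute u (av U) := by
  rw [Commute, SemiconjBy]
  ext g
  rw [coeff_mul_apply_left, coeff_mul_apply_right, Finsupp.sum, Finsupp.sum]
  refine Finset.sum_congr rfl fun a _ => ?_
  by_cases ha : a ∈ R
  · have : a⁻¹ * g ∈ U ↔ g * a⁻¹ ∈ U :=
      ⟨fun h => by simpa using hU a ha _ h, fun h => by
        simpa [mul_assoc] using hU _ (R.inv_mem ha) _ h⟩
    rw [av_coeff, av_coeff, if_congr this rfl rfl, mul_comm]
  · rw [hu a ha, zero_mul, mul_zero]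

theorem av_mul_av (U : Subgroup Q) : av U * av U = av U := by
  have := Fintype.ofFinite Q
  ext g
  rw [coeff_mul_apply_left, Finsupp.sum_fintype _ _ (by simp)]
  have e : ∀ a, (av U).coeff a * (av U).coeff (a⁻¹ * g) =
      if a ∈ U then (Nat.card U : ℝ)⁻¹ * (av U).coeff g else 0 := fun a => by
    rw [av_coeff]
    split_ifs with h
    · rw [av_coeff, av_coeff, if_congr (U.mul_mem_cancel_left (U.inv_mem h)) rfl rfl]
    · rw [zero_mul]
  have e2 : (Finset.univ.filter fun a => a ∈ U).card = Nat.card U := by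
    rw [Nat.card_eq_fintype_card, Fintype.card_subtype]
  have e3 : (Nat.card U : ℝ) ≠ 0 := by exact_mod_cast Nat.card_pos.ne'
  simp only [e]
  rw [← Finset.sum_filter, Finset.sum_const, e2, nsmul_eq_mul, ← mul_assoc, mul_inv_cancel₀ e3,
    one_mul]

omit [Finite Q] in
theorem sp_single {R : Subgroup Q} {g : Q} (hg : g ∈ R) : Sp R (single g 1) := fun h hh => by
  rw [coeff_single, Finsupp.single_eq_of_ne]
  rintro rfl
  exact hh hg

/-- many independent small normal subgroups that contain a conjugate of `x` -/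
theorem bad_of_family {x y : Q} (R : Subgroup Q) (U H : ℕ → Subgroup Q) (m r : ℕ)
    (hR : ∀ k, xs x y k ∈ R) (hU : ∀ i, ∀ g ∈ R, ∀ h ∈ U i, g * h * g⁻¹ ∈ U i)
    (hx : ∀ i, ∃ j, xs x y j ∈ U i) (hm : ∀ i, Nat.card (U i) ≤ m) (hH : ∀ i, H i ≤ R)
    (h1 : ∀ i, H i ≤ H (i + 1)) (h2 : ∀ i, U i ≤ H (i + 1))
    (hd : ∀ i < r, ∀ g ∈ U i, g ∈ H i → g = 1) : Bad x y (1 - (1 - (m : ℝ)⁻¹) ^ r) := by
  have key : ∀ k ≤ r, ∃ P : MonoidAlgebra ℝ Q, P * P = P ∧ Sp (H k) P ∧
      (∀ u, Sp R u → Commute u P) ∧ 0 ≤ P.coeff 1 ∧ P.coeff 1 ≤ (1 - (m : ℝ)⁻¹) ^ k ∧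
      1 - P ∈ AddSubgroup.closure (Pc x y) := by
    intro k
    induction k with
    | zero =>
      exact fun _ => ⟨1, by simp, Sp.one _, fun u _ => Commute.one_right _, by simp, by simp,
        by simp⟩
    | succ k ih =>
      intro hk
      obtain ⟨P, p1, p2, p3, p4, p5, p6⟩ := ih (by omega)
      have q1 : Sp (U k) (1 - av (U k)) := (Sp.one _).sub (sp_av _)
      have q2 : Commute P (1 - av (U k)) :=
        (Commute.one_right _).sub_right (comm_av (hU k) (p2.mono (hH k)))
      have q3 : (1 - av (U k)) * (1 - av (U k)) = 1 - av (U k) := by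
        simp only [mul_sub, sub_mul, one_mul, mul_one, av_mul_av, sub_self, sub_zero]
      have q4 : (1 - av (U k)).coeff 1 = 1 - (Nat.card (U k) : ℝ)⁻¹ := by
        rw [coeff_sub, Finsupp.sub_apply, coeff_one_one, av_coeff, if_pos (U k).one_mem]
      have c1 : (1 : ℝ) ≤ Nat.card (U k) := by exact_mod_cast Nat.card_pos
      have c2 : (Nat.card (U k) : ℝ) ≤ m := by exact_mod_cast hm k
      have c3 : (Nat.card (U k) : ℝ)⁻¹ ≤ 1 := inv_le_one_of_one_le₀ c1
      have c4 : (m : ℝ)⁻¹ ≤ (Nat.card (U k) : ℝ)⁻¹ := inv_anti₀ (by linarith) c2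
      have q5 := q1.coeff_one p2 (hd k hk)
      refine ⟨(1 - av (U k)) * P, ?_, (q1.mono (h2 k)).mul (p2.mono (h1 k)), fun u hu => ?_, ?_,
        ?_, ?_⟩
      · rw [q2.mul_mul_mul_comm, q3, p1]
      · exact ((Commute.one_right _).sub_right (comm_av (hU k) hu)).mul_right (p3 u hu)
      · rw [q5, q4]
        exact mul_nonneg (by linarith) p4
      · rw [q5, q4, pow_succ']
        exact mul_le_mul (by linarith) p5 p4 (by linarith)
      · have e : 1 - (1 - av (U k)) * P = 1 - P + av (U k) * P := by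
          rw [sub_mul, one_mul]; abel
        obtain ⟨j, hj⟩ := hx k
        rw [e]
        refine add_mem p6 (AddSubgroup.subset_closure ⟨fun l => ?_, j, ?_⟩)
        · exact (comm_av (hU k) (sp_single (hR l))).mul_right (p3 _ (sp_single (hR l)))
        · rw [← mul_assoc, single_av hj]
  obtain ⟨P, p1, -, -, -, p5, p6⟩ := key r le_rfl
  refine ⟨1 - P, ?_, ?_, p6⟩
  · simp only [mul_sub, sub_mul, one_mul, mul_one, p1, sub_self, sub_zero]
  · rw [coeff_sub, Finsupp.sub_apply, coeff_one_one]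
    linarith

end Pool.Agent.P.MP_ae6ac5_an.FG
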