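import Pool.Agent.P.MP_ae6ac5_an.Meas

/-! Complex matrices: singular value distributions and determinant bounds. -/

namespace Pool.Agent.P.MP_ae6ac5_an.FG

open Matrix MeasureTheory Set Polynomial
open scoped Matrix.Norms.L2Operator ComplexOrder

variable {D : Type} [Fintype D] [DecidableEq D]

/-- the eigenvalues of `M Mᴴ` -/
noncomputable def ev (M : Matrix D D ℂ) : D → ℝ :=
  (isHermitian_mul_conjTranspose_self M).eigenvalues

theorem ev_nonneg (M : Matrix D D ℂ) (j : D) : 0 ≤ ev M j :=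
  (posSemidef_self_mul_conjTranspose M).eigenvalues_nonneg j

theorem norm_le_of_mem [Nonempty D] {M : Matrix D D ℂ} {z : ℂ} (h : z ∈ spectrum ℂ M) :
    ‖z‖ ≤ ‖M‖ := spectrum.norm_le_norm_of_mem h

theorem ev_le [Nonempty D] (M : Matrix D D ℂ) (j : D) : ev M j ≤ ‖M‖ * ‖M‖ := by
  have h1 := (isHermitian_mul_conjTranspose_self M).eigenvalues_mem_spectrum_real j
  rw [← spectrum.algebraMap_mem_iff ℂ] at h1
  have h2 := norm_le_of_mem h1
  have h3 := norm_mul_le M Mᴴ
  rw [l2_opNorm_conjTranspose] at h3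
  simp only [Complex.coe_algebraMap, Complex.norm_real, Real.norm_eq_abs] at h2
  exact (le_abs_self _).trans (h2.trans h3)

theorem trace_pow (M : Matrix D D ℂ) (n : ℕ) :
    ((M * Mᴴ) ^ n).trace = ((∑ j, ev M j ^ n : ℝ) : ℂ) := by
  have h := (isHermitian_mul_conjTranspose_self M).spectral_theorem
  rw [h, ← map_pow, Unitary.conjStarAlgAut_apply, trace_mul_comm, ← Matrix.mul_assoc,
    Unitary.coe_star_mul_self, Matrix.one_mul, diagonal_pow, trace_diagonal]
  simp [ev]

theorem prod_ev (M : Matrix D D ℂ) : ∏ j, ev M j = ‖M.det‖ ^ 2 := by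
  have h := (isHermitian_mul_conjTranspose_self M).det_eq_prod_eigenvalues
  rw [det_mul, det_conjTranspose, Complex.star_def, Complex.mul_conj'] at h
  apply Complex.ofReal_injective
  push_cast
  exact h.symm

theorem ev_pos {M : Matrix D D ℂ} (h : M.det ≠ 0) (j : D) : 0 < ev M j := by
  have hne : ∀ j ∈ Finset.univ, ev M j ≠ 0 := by
    rw [← Finset.prod_ne_zero_iff, prod_ev]
    exact pow_ne_zero 2 (norm_ne_zero_iff.mpr h)
  exact lt_of_le_of_ne (ev_nonneg M j) (hne j (Finset.mem_univ _)).symm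

theorem sum_log_ev {M : Matrix D D ℂ} (h : M.det ≠ 0) :
    ∑ j, Real.log (ev M j) = 2 * Real.log ‖M.det‖ := by
  rw [← Real.log_prod fun j _ => (ev_pos h j).ne', prod_ev, Real.log_pow]
  norm_num

theorem det_roots (B : Matrix D D ℂ) : (1 - B).det = (B.charpoly.roots.map fun z => 1 - z).prod := by
  have hsp : B.charpoly.Splits := IsAlgClosed.splits _
  have e2 := Matrix.eval_charpoly B 1
  rw [map_one] at e2
  rw [← e2]
  conv_lhs => rw [hsp.eq_prod_roots_of_monic (Matrix.charpoly_monic B)]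
  rw [eval_multiset_prod, Multiset.map_map]
  simp

theorem trace_le_mult {B E : Matrix D D ℂ} {n : ℕ} (hE : E * E = E) (h : B ^ n * E = 0) :
    ∃ k : ℕ, E.trace = k ∧ k ≤ B.charpoly.roots.count 0 := by
  have hi : IsIdempotentElem (toLin' E) := by
    rw [IsIdempotentElem, Module.End.mul_eq_comp, ← toLin'_mul, hE]
  have h1 := (LinearMap.IsIdempotentElem.isProj_range _ hi).trace
  rw [trace_toLin'_eq] at h1
  refine ⟨_, h1, ?_⟩
  rw [count_roots, ← charpoly_toLin']
  refine le_trans (Submodule.finrank_mono ?_)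
    (LinearMap.finrank_genEigenspace_le (toLin' B) 0 n)
  rintro _ ⟨v, rfl⟩
  rw [Module.End.mem_genEigenspace_nat, zero_smul, sub_zero, LinearMap.mem_ker, ← toLin'_pow,
    ← LinearMap.comp_apply, ← toLin'_mul, h]
  simp

theorem prod_le {c : ℝ} (hc : 0 ≤ c) (r : Multiset ℂ) (h : ∀ z ∈ r, ‖z‖ ≤ c) :
    ‖(r.map fun z => 1 - z).prod‖ * (1 + c) ^ r.count 0 ≤ (1 + c) ^ r.card := by
  induction r using Multiset.induction_on with
  | empty => simp
  | cons a s ih =>
    have ih' := ih fun z hz => h z (Multiset.mem_cons_of_mem hz)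
    have ha := h a (Multiset.mem_cons_self _ _)
    rw [Multiset.map_cons, Multiset.prod_cons, norm_mul, Multiset.card_cons, pow_succ]
    rcases eq_or_ne a 0 with rfl | h0
    · rw [Multiset.count_cons_self, pow_succ, sub_zero, norm_one, one_mul, ← mul_assoc]
      exact mul_le_mul_of_nonneg_right ih' (by linarith)
    · rw [Multiset.count_cons_of_ne h0.symm, mul_assoc, mul_comm _ (1 + c)]
      refine mul_le_mul ((norm_sub_le _ _).trans (by rw [norm_one]; linarith)) ih'
        (by positivity) (by linarith)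

/-- a matrix that is nilpotent on a large subspace -/
theorem log_det_le [Nonempty D] {B E : Matrix D D ℂ} {n : ℕ} {c β : ℝ} (hE : E * E = E)
    (h : B ^ n * E = 0) (hB : ‖B‖ ≤ c) (ht : β * Fintype.card D ≤ E.trace.re)
    (hd : (1 - B).det ≠ 0) :
    Real.log ‖(1 - B).det‖ ≤ (1 - β) * Fintype.card D * Real.log (1 + c) := by
  have hc : 0 ≤ c := (norm_nonneg _).trans hB
  obtain ⟨k, h1, h2⟩ := trace_le_mult hE h
  have h3 := prod_le hc B.charpoly.roots fun z hz => (norm_le_of_mem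
    (mem_spectrum_iff_isRoot_charpoly.mpr ((mem_roots B.charpoly_monic.ne_zero).mp hz))).trans hB
  rw [← det_roots, splits_iff_card_roots.mp (IsAlgClosed.splits _),
    charpoly_natDegree_eq_dim] at h3
  have h4 := Real.log_le_log (mul_pos (norm_pos_iff.mpr hd) (by positivity)) h3
  rw [Real.log_mul (norm_ne_zero_iff.mpr hd) (by positivity), Real.log_pow, Real.log_pow] at h4
  have h5 : 0 ≤ Real.log (1 + c) := Real.log_nonneg (by linarith)
  have h6 : (k : ℝ) ≤ (B.charpoly.roots.count 0 : ℕ) := by exact_mod_cast h2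
  rw [h1, Complex.natCast_re] at ht
  nlinarith [mul_le_mul_of_nonneg_right (ht.trans h6) h5]

theorem exists_phase {f : ℂ → ℂ} (hf : Differentiable ℂ f) :
    ∃ z : ℂ, ‖z‖ = 1 ∧ ‖f 0‖ ≤ ‖f z‖ := by
  obtain ⟨z, h1, h2⟩ := Complex.exists_mem_frontier_isMaxOn_norm (U := Metric.ball 0 1)
    Metric.isBounded_ball ⟨0, by simp⟩ hf.diffContOnCl
  rw [frontier_ball _ one_ne_zero] at h1
  exact ⟨z, by simpa using h1, h2 (subset_closure (by simp))⟩

theorem diff_det (A B : Matrix D D ℂ) : Differentiable ℂ fun z : ℂ => (A - z • B).det := by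
  simp only [det_apply', Matrix.sub_apply, Matrix.smul_apply, smul_eq_mul]
  fun_prop

/-- suitable phases make the determinant large -/
theorem exists_phases (X Y : Matrix D D ℂ) (hY : ‖Y.det‖ = 1) (c : ℝ) (hc : 0 ≤ c) :
    ∃ ξ ω : ℂ, ‖ξ‖ = 1 ∧ ‖ω‖ = 1 ∧
      c ^ Fintype.card D ≤ ‖(1 - (c : ℂ) • ((1 - ξ • X) * (ω • Y))).det‖ := by
  obtain ⟨ξ, h1, h2⟩ := exists_phase (diff_det 1 X)
  obtain ⟨z, h3, h4⟩ := exists_phase (diff_det ((c : ℂ) • ((1 - ξ • X) * Y)) 1)
  have hz : z ≠ 0 := by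
    rintro rfl
    simp at h3
  refine ⟨ξ, z⁻¹, h1, by simp [h3], ?_⟩
  have e : 1 - (c : ℂ) • ((1 - ξ • X) * (z⁻¹ • Y)) =
      (-z⁻¹) • ((c : ℂ) • ((1 - ξ • X) * Y) - z • 1) := by
    rw [smul_sub, smul_smul (-z⁻¹) z, neg_mul, inv_mul_cancel₀ hz, Matrix.mul_smul]
    module
  simp only [zero_smul, sub_zero, det_one, norm_one, det_smul, det_mul, norm_mul, norm_pow, hY,
    Complex.norm_real, Real.norm_of_nonneg hc, mul_one] at h2 h4
  rw [e, det_smul, norm_mul, norm_pow, norm_neg, norm_inv, h3, inv_one, one_pow, one_mul]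
  exact le_trans (le_mul_of_one_le_right (by positivity) h2) h4

end Pool.Agent.P.MP_ae6ac5_an.FG
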