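import Mathlib

/-! Spectral measures and Fuglede-Kadison determinants of elements of integral group rings. -/

namespace Pool.Agent.P.MP_ae6ac5_an.FG

open MeasureTheory Set
open scoped Classical

variable {G : Type} [Group G]

/-- the adjoint `∑ r_g g⁻¹` of `∑ r_g g` -/
noncomputable def adj (a : MonoidAlgebra ℤ G) : MonoidAlgebra ℤ G :=
  MonoidAlgebra.mapDomain (fun g => g⁻¹) a

/-- `μ` is the spectral measure of `a a*` for the von Neumann trace -/
def IsSpec (a : MonoidAlgebra ℤ G) (μ : Measure ℝ) : Prop :=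
  IsProbabilityMeasure μ ∧ (∃ C : ℝ, μ (Icc 0 C)ᶜ = 0) ∧
    ∀ n : ℕ, ∫ t, t ^ n ∂μ = (((a * adj a) ^ n).coeff 1 : ℤ)

/-- the Fuglede-Kadison determinant read off from the spectral measure -/
noncomputable def fk (μ : Measure ℝ) : ℝ :=
  if IntegrableOn Real.log (Ioi 0) μ then Real.exp (1 / 2 * ∫ t in Ioi 0, Real.log t ∂μ) else 0

/-- the element `1 - c (1 - x) y` -/
noncomputable def elt (c : ℕ) (x y : G) : MonoidAlgebra ℤ G :=
  1 - c * ((1 - MonoidAlgebra.of ℤ G x) * MonoidAlgebra.of ℤ G y)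

end Pool.Agent.P.MP_ae6ac5_an.FG
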