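import Pool.Agent.P.MP_ae6ac5_an.FG.Cx
import Pool.Agent.P.MP_ae6ac5_an.FG.Defs
import Pool.Agent.P.MP_ae6ac5_an.Reg

/-! Finite-dimensional unitary models of a group ring element. -/

namespace Pool.Agent.P.MP_ae6ac5_an.FG

open Matrix MeasureTheory Set Filter
open scoped Matrix.Norms.L2Operator

variable {G D : Type} [Group G] [Fintype D] [DecidableEq D]

/-- a unitary representation -/
def Uni (θ : G →* Matrix D D ℂ) : Prop := ∀ g, θ g⁻¹ = (θ g)ᴴ

theorem Uni.norm [Nonempty D] {θ : G →* Matrix D D ℂ} (h : Uni θ) (g : G) : ‖θ g‖ = 1 := by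
  apply CStarRing.norm_of_mem_unitary
  constructor
  · rw [star_eq_conjTranspose, ← h, ← map_mul, inv_mul_cancel, map_one]
  · rw [star_eq_conjTranspose, ← h, ← map_mul, mul_inv_cancel, map_one]

theorem Uni.det {θ : G →* Matrix D D ℂ} (h : Uni θ) (g : G) : ‖(θ g).det‖ = 1 := by
  have h1 : (θ g * (θ g)ᴴ).det = 1 := by rw [← h, ← map_mul, mul_inv_cancel, map_one, det_one]
  rw [det_mul, det_conjTranspose] at h1
  have h2 := congrArg (‖·‖) h1
  simp only [norm_mul, norm_star, norm_one] at h2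
  nlinarith [norm_nonneg (θ g).det]

/-- the representation of the integral group ring -/
noncomputable def Ps (θ : G →* Matrix D D ℂ) : MonoidAlgebra ℤ G →ₐ[ℤ] Matrix D D ℂ :=
  MonoidAlgebra.lift ℤ (Matrix D D ℂ) G θ

theorem Ps_single (θ : G →* Matrix D D ℂ) (g : G) (r : ℤ) :
    Ps θ (MonoidAlgebra.single g r) = r • θ g := by
  simp [Ps]

theorem Ps_adj {θ : G →* Matrix D D ℂ} (h : Uni θ) (a : MonoidAlgebra ℤ G) :
    Ps θ (adj a) = (Ps θ a)ᴴ := by
  induction a using MonoidAlgebra.induction_linear with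
  | zero => simp [adj]
  | add a b ha hb =>
    rw [adj, MonoidAlgebra.mapDomain_add, map_add, map_add, conjTranspose_add, ← ha, ← hb]
    rfl
  | single g r =>
    rw [adj, MonoidAlgebra.mapDomain_single, Ps_single, Ps_single, h, conjTranspose_zsmul]

theorem Ps_norm [Nonempty D] {θ : G →* Matrix D D ℂ} (h : Uni θ) (a : MonoidAlgebra ℤ G) :
    ‖Ps θ a‖ ≤ ∑ g ∈ a.coeff.support, |(a.coeff g : ℝ)| := by
  rw [Ps, MonoidAlgebra.lift_apply, Finsupp.sum]
  refine (norm_sum_le _ _).trans (Finset.sum_le_sum fun g _ => ?_)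
  rw [← Int.cast_smul_eq_zsmul ℂ, norm_smul, h.norm, mul_one, Complex.norm_intCast]

theorem Ps_elt (θ : G →* Matrix D D ℂ) (c : ℕ) (x y : G) :
    Ps θ (elt c x y) = 1 - (c : ℂ) • ((1 - θ x) * θ y) := by
  simp only [elt, map_sub, map_mul, map_one, map_natCast, MonoidAlgebra.of_apply, Ps_single,
    one_smul]
  rw [← nsmul_eq_mul, Nat.cast_smul_eq_nsmul]

theorem moment_ev [Nonempty D] {θ : G →* Matrix D D ℂ} (h : Uni θ) (a : MonoidAlgebra ℤ G)
    (n : ℕ) {m : ℤ} (hm : (Ps θ ((a * adj a) ^ n)).trace = Fintype.card D * (m : ℂ)) :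
    ∫ t, t ^ n ∂(emp (ev (Ps θ a))) = m := by
  rw [map_pow, map_mul, Ps_adj h, trace_pow] at hm
  have h1 : ∑ j, ev (Ps θ a) j ^ n = Fintype.card D * (m : ℝ) := by exact_mod_cast hm
  have h2 : (Fintype.card D : ℝ) ≠ 0 := by simp
  rw [integral_emp, h1, mul_div_cancel_left₀ _ h2]

theorem supp_ev [Nonempty D] {θ : G →* Matrix D D ℂ} (h : Uni θ) (a : MonoidAlgebra ℤ G) :
    emp (ev (Ps θ a)) (Icc 0 ((∑ g ∈ a.coeff.support, |(a.coeff g : ℝ)|) ^ 2))ᶜ = 0 := by
  refine emp_supp _ fun j => ⟨ev_nonneg _ j, (ev_le _ j).trans ?_⟩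
  rw [sq]
  exact mul_self_le_mul_self (norm_nonneg _) (Ps_norm h a)

theorem transfer1 {μ : Measure ℝ} [IsProbabilityMeasure μ] {C : ℝ}
    (hμ : μ (Icc 0 C)ᶜ = 0) (η : ℕ → Measure ℝ) [∀ i, IsProbabilityMeasure (η i)]
    (hη : ∀ i, η i (Icc 0 C)ᶜ = 0)
    (hm : ∀ n : ℕ, ∀ᶠ i in atTop, ∫ x, x ^ n ∂(η i) = ∫ x, x ^ n ∂μ)
    {f : ℝ → ℝ} (hf : ContinuousOn f (Icc 0 C)) {L : ℝ} (hL : ∀ i, L ≤ ∫ x, f x ∂(η i)) :
    L ≤ ∫ x, f x ∂μ := by
  apply le_of_forall_pos_le_add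
  intro ε hε
  obtain ⟨p, hp⟩ := exists_polynomial_near_of_continuousOn 0 C f hf (ε / 2) (by linarith)
  have hev : ∀ᶠ i in atTop, ∀ k ∈ Finset.range (p.natDegree + 1),
      ∫ x, x ^ k ∂(η i) = ∫ x, x ^ k ∂μ := (Finset.eventually_all _).mpr fun k _ => hm k
  obtain ⟨i, hi⟩ := hev.exists
  have hpc : ContinuousOn (fun x => p.eval x) (Icc 0 C) := p.continuous.continuousOn
  have h1 := abs_integral_sub_le (hη i) hpc hf hp
  have h2 := abs_integral_sub_le hμ hpc hf hp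
  have h4 : ∫ x, p.eval x ∂(η i) = ∫ x, p.eval x ∂μ := by
    rw [integral_poly (hη i), integral_poly hμ]
    exact Finset.sum_congr rfl fun k hk => by rw [hi k hk]
  have h5 := hL i
  rw [abs_le] at h1 h2
  linarith [h1.1, h1.2, h2.1, h2.2]

/-- upper semicontinuity of the determinant along finite-dimensional models -/
theorem lower (a : MonoidAlgebra ℤ G) (Q : ℕ → Type) [∀ i, Fintype (Q i)]
    [∀ i, DecidableEq (Q i)] [∀ i, Nonempty (Q i)] (θ : ∀ i, G →* Matrix (Q i) (Q i) ℂ)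
    (hθ : ∀ i, Uni (θ i)) (htr : ∀ W : MonoidAlgebra ℤ G, ∀ᶠ i in atTop,
      (Ps (θ i) W).trace = Fintype.card (Q i) * (W.coeff 1 : ℂ)) {c : ℝ} (hc : 0 < c)
    (hd : ∀ i, c ^ Fintype.card (Q i) ≤ ‖(Ps (θ i) a).det‖) :
    ∃ μ, IsSpec a μ ∧ c ≤ fk μ := by
  have hm : ∀ n : ℕ, ∀ᶠ i in atTop, ∫ t, t ^ n ∂(emp (ev (Ps (θ i) a))) =
      (((a * adj a) ^ n).coeff 1 : ℤ) := fun n =>
    (htr _).mono fun i hi => moment_ev (hθ i) a n hi
  obtain ⟨μ, h1, h2, h3⟩ := exists_limit (fun i => emp (ev (Ps (θ i) a))) (sq_nonneg _)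
    (fun i => supp_ev (hθ i) a) _ hm
  refine ⟨μ, ⟨h1, ⟨_, h2⟩, h3⟩, ?_⟩
  obtain ⟨h4, h5⟩ := log_lower (L := 2 * Real.log c) h2 fun ε hε => by
    have h6 : 0 ≤ Real.log (1 + ε) := Real.log_nonneg (by linarith)
    have h7 : 2 * Real.log c ≤ ∫ x, Real.log (x + ε) ∂μ := by
      refine transfer1 h2 (fun i => emp (ev (Ps (θ i) a))) (fun i => supp_ev (hθ i) a)
        (fun n => by rw [h3 n]; exact hm n)
        (ContinuousOn.log (by fun_prop) fun t ht => by linarith [ht.1]) fun i => ?_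
      have hp : 0 < c ^ Fintype.card (Q i) := by positivity
      have h0 : (Ps (θ i) a).det ≠ 0 := norm_pos_iff.mp (hp.trans_le (hd i))
      have h8 := Real.log_le_log hp (hd i)
      have h9 : (0 : ℝ) < Fintype.card (Q i) := by exact_mod_cast Fintype.card_pos
      rw [integral_emp, le_div_iff₀ h9]
      rw [Real.log_pow] at h8
      refine le_trans (le_trans (by linarith) (sum_log_ev h0).ge) ?_
      exact Finset.sum_le_sum fun j _ => Real.log_le_log (ev_pos h0 j) (by linarith)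
    linarith
  rw [fk, if_pos h4]
  calc c = Real.exp (Real.log c) := (Real.exp_log hc).symm
    _ ≤ _ := Real.exp_le_exp.mpr (by linarith)

variable {Q : Type} [Group Q] [Fintype Q] [DecidableEq Q]

theorem trace_regC (q : Q) : (reg ℂ q).trace = if q = 1 then (Fintype.card Q : ℂ) else 0 := by
  simp only [Matrix.trace, diag_apply, reg_apply, mul_eq_left]
  split_ifs <;> simp

theorem uni_reg : Uni (reg ℂ : Q →* Matrix Q Q ℂ) := by
  intro g
  rw [reg_inv]
  ext u v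
  simp only [transpose_apply, conjTranspose_apply, reg_apply]
  split_ifs <;> simp

/-- the regular representation of a quotient twisted by a character -/
noncomputable def tw (π : G →* Q) (χ : G →* Circle) : G →* Matrix Q Q ℂ where
  toFun g := (χ g : ℂ) • reg ℂ (π g)
  map_one' := by simp
  map_mul' g h := by simp [smul_smul, mul_comm]

theorem tw_apply (π : G →* Q) (χ : G →* Circle) (g : G) :
    tw π χ g = (χ g : ℂ) • reg ℂ (π g) := rfl

theorem uni_tw (π : G →* Q) (χ : G →* Circle) : Uni (tw π χ) := by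
  intro g
  rw [tw_apply, tw_apply, map_inv, map_inv, uni_reg, conjTranspose_smul, Circle.coe_inv_eq_conj]
  rfl

theorem trace_tw (π : G →* Q) (χ : G →* Circle) (W : MonoidAlgebra ℤ G)
    (h : ∀ g ∈ W.coeff.support, π g = 1 → g = 1) :
    (Ps (tw π χ) W).trace = Fintype.card Q * (W.coeff 1 : ℂ) := by
  rw [Ps, MonoidAlgebra.lift_apply, Finsupp.sum, trace_sum, Finset.sum_eq_single 1]
  · rw [map_one (tw π χ), trace_smul, trace_one, zsmul_eq_mul, mul_comm]
  · intro g hg h1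
    rw [tw_apply, trace_smul, trace_smul, trace_regC, if_neg fun h' => h1 (h g hg h')]
    simp
  · intro h1
    rw [Finsupp.notMem_support_iff.mp h1]
    simp

theorem tw_id : tw (MonoidHom.id Q) 1 = reg ℂ := by
  ext g : 1
  simp [tw_apply]

/-- the determinant over a finite group -/
theorem upper (a : MonoidAlgebra ℤ Q) (h0 : (Ps (reg ℂ) a).det ≠ 0) {L : ℝ}
    (h : Real.log ‖(Ps (reg ℂ) a).det‖ ≤ L * Fintype.card Q) :
    ∃ ν, IsSpec a ν ∧ fk ν ≤ Real.exp L := by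
  refine ⟨emp (ev (Ps (reg ℂ) a)), ⟨emp_prob _, ⟨_, supp_ev uni_reg a⟩, fun n => ?_⟩, ?_⟩
  · apply moment_ev uni_reg
    rw [← tw_id]
    exact trace_tw _ _ _ fun g _ hg => hg
  · rw [fk]
    split_ifs
    · have h9 : (0 : ℝ) < Fintype.card Q := by exact_mod_cast Fintype.card_pos
      rw [setIntegral_log_emp _ (ev_pos h0), sum_log_ev h0, Real.exp_le_exp, ← mul_div_assoc,
        div_le_iff₀ h9]
      linarith
    · exact (Real.exp_pos L).le

theorem det_elt_ne {c : ℕ} (hc : 2 ≤ c) (x y : Q) : (Ps (reg ℂ) (elt c x y)).det ≠ 0 := by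
  let MZ : Matrix Q Q ℤ := 1 - c • ((1 - reg ℤ x) * reg ℤ y)
  have h1 : (Int.castRingHom ℂ).mapMatrix MZ = Ps (reg ℂ) (elt c x y) := by
    simp only [MZ, map_sub, map_mul, map_one, map_reg, map_nsmul, Ps_elt, Nat.cast_smul_eq_nsmul]
  have h2 : (Int.castRingHom (ZMod c)).mapMatrix MZ = 1 := by
    simp only [MZ, map_sub, map_mul, map_one, map_reg, map_nsmul]
    rw [← Nat.cast_smul_eq_nsmul (ZMod c), ZMod.natCast_self, zero_smul, sub_zero]
  intro h
  rw [← h1, ← RingHom.map_det] at h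
  have h3 : MZ.det = 0 := by simpa using h
  have h4 := RingHom.map_det (Int.castRingHom (ZMod c)) MZ
  have : Fact (1 < c) := ⟨hc⟩
  rw [h2, h3] at h4
  simp at h4

end Pool.Agent.P.MP_ae6ac5_an.FG
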