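import Pool.Agent.P.MP_ae6ac5_an.FG.Wr
import Pool.Agent.P.MP_ae6ac5_an.FG.Rep

/-! A chain of finite quotients of a free group along which the determinants stay small. -/

namespace Pool.Agent.P.MP_ae6ac5_an.FG

open Filter Matrix
open scoped Classical Matrix.Norms.L2Operator

variable {α : Type} [Fintype α] (x y : α)

/-- `N` is the kernel of a map onto a finite group in which `(1 - x) y` is mostly nilpotent -/
def Gd (N : Subgroup (FreeGroup α)) (β : ℝ) : Prop :=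
  ∃ (n : ℕ) (Q : Type) (_ : Group Q) (_ : Finite Q) (π : FreeGroup α →* Q), 0 < n ∧
    Function.Surjective π ∧ π.ker = N ∧ (∀ a, π (FreeGroup.of a) ^ n = 1) ∧
    Bad (π (FreeGroup.of x)) (π (FreeGroup.of y)) β

omit [Fintype α] in
theorem gd_top : Gd x y ⊤ 1 :=
  ⟨1, Unit, inferInstance, inferInstance, 1, one_pos, fun _ => ⟨1, rfl⟩, MonoidHom.ker_one,
    fun _ => rfl, 1, mul_one _, MonoidAlgebra.coeff_one_one.ge, AddSubgroup.subset_closure
      ⟨fun _ => Commute.one_right _, 0, mul_one _⟩⟩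

omit [Fintype α] in
theorem surj_prod {Q Q' : Type} [Group Q] [Group Q'] {π : FreeGroup α →* Q}
    {π' : FreeGroup α →* Q'} (h : Function.Surjective π) (h' : Function.Surjective π') {n n' : ℕ}
    (hn : ∀ a, π (FreeGroup.of a) ^ n = 1) (hn' : ∀ a, π' (FreeGroup.of a) ^ n' = 1)
    (hc : n.Coprime n') : Function.Surjective (π.prod π') := by
  have h1 : π.ker ⊔ π'.ker = ⊤ := by
    rw [eq_top_iff, ← FreeGroup.closure_range_of, Subgroup.closure_le]
    rintro _ ⟨a, rfl⟩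
    obtain ⟨u, v, e⟩ := Nat.isCoprime_iff_coprime.2 hc
    have : FreeGroup.of a = (FreeGroup.of a ^ n) ^ u * (FreeGroup.of a ^ n') ^ v := by
      rw [← zpow_natCast, ← zpow_natCast, ← _root_.zpow_mul, ← _root_.zpow_mul, ← _root_.zpow_add,
        mul_comm _ u, mul_comm _ v, e, zpow_one]
    rw [this]
    exact Subgroup.mul_mem_sup (zpow_mem (by rw [MonoidHom.mem_ker, map_pow, hn]) _)
      (zpow_mem (by rw [MonoidHom.mem_ker, map_pow, hn']) _)
  rintro ⟨q, q'⟩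
  obtain ⟨g, rfl⟩ := h q
  obtain ⟨g', rfl⟩ := h' q'
  have h2 : g⁻¹ * g' ∈ π.ker ⊔ π'.ker := h1 ▸ Subgroup.mem_top _
  obtain ⟨a, ha, b, hb, e⟩ := Subgroup.mem_sup_of_normal_right.1 h2
  refine ⟨g * a, Prod.ext ?_ ?_⟩
  · simp [MonoidHom.mem_ker.1 ha]
  · have := congrArg π' e
    rw [map_mul, MonoidHom.mem_ker.1 hb, mul_one] at this
    simp [this]

variable {x y}

theorem gd_step (hxy : x ≠ y) {N : Subgroup (FreeGroup α)} {β δ : ℝ} (h : Gd x y N β)
    (hβ : 0 ≤ β) (hβ1 : β ≤ 1) (hδ : 0 < δ) (w : FreeGroup α) :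
    ∃ N' ≤ N, (w ∈ N' → w = 1) ∧ Gd x y N' (β - δ) := by
  obtain ⟨n, Q, _, _, π, h0, h1, h2, h3, h4⟩ := h
  by_cases hw : w = 1
  · exact ⟨N, le_rfl, fun _ => hw, n, Q, _, ‹_›, π, h0, h1, h2, h3, h4.mono (by linarith)⟩
  have : Nontrivial α := ⟨x, y, hxy⟩
  obtain ⟨p, p1, p2, p3, p4⟩ := exists_rho Fintype.one_lt_card hw h0
  have : NeZero p := ⟨by omega⟩
  obtain ⟨l, hl⟩ := wr_ne (rho (ZMod p)) y p3
  have m1 : (1 : ℝ) ≤ Nat.card (Fin l → (α → ZMod p) → α → ZMod p) := by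
    exact_mod_cast Nat.card_pos
  have m2 : (0 : ℝ) < (Nat.card (Fin l → (α → ZMod p) → α → ZMod p) : ℝ)⁻¹ := by positivity
  have m3 := inv_le_one_of_one_le₀ m1
  obtain ⟨r, hr⟩ := exists_pow_lt_of_lt_one hδ
    (y := 1 - (Nat.card (Fin l → (α → ZMod p) → α → ZMod p) : ℝ)⁻¹) (by linarith)
  have hr0 : 0 ≤ (1 - (Nat.card (Fin l → (α → ZMod p) → α → ZMod p) : ℝ)⁻¹) ^ r :=
    pow_nonneg (by linarith) _
  have hr1 : (1 - (Nat.card (Fin l → (α → ZMod p) → α → ZMod p) : ℝ)⁻¹) ^ r ≤ 1 :=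
    pow_le_one₀ (by linarith) (by linarith)
  have : NeZero (p ^ (r * l + 1)) := ⟨by positivity⟩
  have hb := wr_bad (n := p ^ (r * l + 1)) (rho (ZMod p)) y hxy l r
    ((Nat.le_succ _).trans (Nat.lt_pow_self p1).le)
  have hp : ∀ a, (wr (rho (ZMod p)) y (p ^ (r * l + 1)) l).rangeRestrict (FreeGroup.of a) ^
      p ^ (r * l + 1) = 1 := fun a => Subtype.ext (wr_pow _ _ _
        (fun b => by rw [pow_succ', pow_mul, p4, one_pow]) a)
  have hc : n.Coprime (p ^ (r * l + 1)) := p2.pow_right _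
  refine ⟨_, ?_, fun h => ?_, n * p ^ (r * l + 1), _, _, inferInstance,
    π.prod (wr (rho (ZMod p)) y (p ^ (r * l + 1)) l).rangeRestrict, by positivity,
    surj_prod h1 (MonoidHom.rangeRestrict_surjective _) h3 hp hc, rfl, fun a => ?_,
    (h4.prod hb hβ (by linarith) (h3 y) (hp y) hc).mono (by nlinarith)⟩
  · rw [← h2]
    exact fun g hg => congrArg Prod.fst hg
  · exact absurd (congrArg (fun z => z.2.1) h) (hl _)
  · refine Prod.ext ?_ ?_
    · rw [Prod.pow_fst, pow_mul, MonoidHom.prod_apply, h3, one_pow, Prod.fst_one]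
    · rw [Prod.pow_snd, mul_comm n, pow_mul, MonoidHom.prod_apply, hp, one_pow, Prod.snd_one]

theorem exists_chain (hxy : x ≠ y) {ε : ℝ} (h0 : 0 < ε) (h1 : ε ≤ 1) :
    ∃ N : ℕ → Subgroup (FreeGroup α), Antitone N ∧ ⨅ i, N i = ⊥ ∧ ∀ i, Gd x y (N i) (1 - ε) := by
  obtain ⟨e, he⟩ := exists_surjective_nat (FreeGroup α)
  have st : ∀ (i : ℕ) (N : {N // Gd x y N (1 - ε + ε / 2 ^ i)}),
      ∃ N' : {N // Gd x y N (1 - ε + ε / 2 ^ (i + 1))}, N'.1 ≤ N.1 ∧ (e i ∈ N'.1 → e i = 1) := by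
    intro i N
    have p1 : 0 < ε / 2 ^ i := by positivity
    have p2 : ε / 2 ^ i ≤ ε := div_le_self h0.le (one_le_pow₀ one_le_two)
    obtain ⟨N', a, b, c⟩ := gd_step hxy N.2 (by linarith) (by linarith)
      (δ := ε / 2 ^ (i + 1)) (by positivity) (e i)
    have : 1 - ε + ε / 2 ^ i - ε / 2 ^ (i + 1) = 1 - ε + ε / 2 ^ (i + 1) := by
      field_simp
      ring
    exact ⟨⟨N', this ▸ c⟩, a, b⟩
  choose f f1 f2 using st
  let N : ∀ i : ℕ, {N // Gd x y N (1 - ε + ε / 2 ^ i)} :=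
    fun i => Nat.rec ⟨⊤, by simpa using gd_top x y⟩ f i
  refine ⟨fun i => (N i).1, antitone_nat_of_succ_le fun i => f1 i (N i), ?_, fun i => ?_⟩
  · rw [eq_bot_iff]
    intro g hg
    obtain ⟨i, rfl⟩ := he g
    exact f2 i (N i) (Subgroup.mem_iInf.1 hg (i + 1))
  · obtain ⟨n, Q, _, _, π, a, b, c, d, h⟩ := (N i).2
    exact ⟨n, Q, _, ‹_›, π, a, b, c, d, h.mono (le_add_of_nonneg_right (by positivity))⟩

theorem Bad.upper {Q : Type} [Group Q] [Finite Q] {x y : Q} {β : ℝ} (h : Bad x y β) {c : ℕ}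
    (hc : 2 ≤ c) : ∃ ν, IsSpec (elt c x y) ν ∧
      fk ν ≤ Real.exp ((1 - β) * Real.log (1 + 2 * c)) := by
  have := Fintype.ofFinite Q
  obtain ⟨E, h1, h2, h3⟩ := h
  let Ψ := MonoidAlgebra.lift ℝ (Matrix Q Q ℂ) Q (reg ℂ)
  have h4 := congrArg Ψ (nil (orderOf_pos y) (pow_orderOf_eq_one y) h3)
  simp only [Ψ, map_mul, map_pow, map_sub, map_one, map_zero, MonoidAlgebra.lift_single,
    one_smul] at h4
  have h5 : (Ψ E).trace = (Fintype.card Q * E.coeff 1 : ℝ) := by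
    rw [MonoidAlgebra.lift_apply, Finsupp.sum, trace_sum, Finset.sum_eq_single 1]
    · rw [trace_smul, trace_regC, if_pos rfl]
      simp [mul_comm]
    · intro g _ hg
      rw [trace_smul, trace_regC, if_neg hg, smul_zero]
    · intro h
      rw [Finsupp.notMem_support_iff.mp h]
      simp
  have h0 := det_elt_ne hc x y
  refine FG.upper _ h0 ?_
  rw [Ps_elt] at h0 ⊢
  rw [mul_right_comm]
  refine log_det_le (E := Ψ E) (n := orderOf y) (by rw [← map_mul, h1])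
    (by rw [smul_pow, Matrix.smul_mul, h4, smul_zero]) ?_ ?_ h0
  · rw [norm_smul, Complex.norm_natCast, mul_comm]
    refine mul_le_mul_of_nonneg_right ((norm_mul_le _ _).trans ?_) (Nat.cast_nonneg _)
    rw [uni_reg.norm, mul_one]
    refine (norm_sub_le _ _).trans ?_
    rw [norm_one, uni_reg.norm]
    norm_num
  · rw [h5, Complex.ofReal_re, mul_comm]
    exact mul_le_mul_of_nonneg_left h2 (Nat.cast_nonneg _)

omit [Fintype α] in
theorem lower_free (hxy : x ≠ y) (N : ℕ → Subgroup (FreeGroup α)) [∀ i, (N i).Normal]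
    [∀ i, (N i).FiniteIndex] (h1 : Antitone N) (h2 : ⨅ i, N i = ⊥) {c : ℕ} (hc : 0 < c) :
    ∃ μ, IsSpec (elt c (FreeGroup.of x) (FreeGroup.of y)) μ ∧ c ≤ fk μ := by
  have : ∀ i, Fintype (FreeGroup α ⧸ N i) := fun i => Fintype.ofFinite _
  choose ξ ω a b d using fun i => exists_phases
    (reg ℂ (QuotientGroup.mk' (N i) (FreeGroup.of x)))
    (reg ℂ (QuotientGroup.mk' (N i) (FreeGroup.of y))) (uni_reg.det _) c (Nat.cast_nonneg _)
  obtain ⟨ξ', rfl⟩ : ∃ ξ' : ℕ → Circle, ξ = fun i => (ξ' i : ℂ) :=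
    ⟨fun i => ⟨ξ i, mem_sphere_zero_iff_norm.2 (a i)⟩, rfl⟩
  obtain ⟨ω', rfl⟩ : ∃ ω' : ℕ → Circle, ω = fun i => (ω' i : ℂ) :=
    ⟨fun i => ⟨ω i, mem_sphere_zero_iff_norm.2 (b i)⟩, rfl⟩
  refine lower _ (fun i => FreeGroup α ⧸ N i) (fun i => tw (QuotientGroup.mk' (N i))
    (FreeGroup.lift fun t => if t = x then ξ' i else ω' i)) (fun i => uni_tw _ _) (fun W => ?_)
    (by exact_mod_cast hc) fun i => ?_
  · have : ∀ g : FreeGroup α, ∀ᶠ i in atTop, g ∈ N i → g = 1 := fun g => by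
      by_cases hg : g = 1
      · exact Eventually.of_forall fun _ _ => hg
      · obtain ⟨j, hj⟩ : ∃ j, g ∉ N j := by
          by_contra! h
          exact hg (Subgroup.mem_bot.1 (h2 ▸ Subgroup.mem_iInf.2 h))
        exact (eventually_ge_atTop j).mono fun i hi h => absurd (h1 hi h) hj
    exact ((Finset.eventually_all W.coeff.support).2 fun g _ => this g).mono fun i hi =>
      trace_tw _ _ _ fun g hg h => hi g hg ((QuotientGroup.eq_one_iff g).1 h)
  · rw [Ps_elt, tw_apply, tw_apply, FreeGroup.lift_apply_of, FreeGroup.lift_apply_of, if_pos rfl,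
      if_neg hxy.symm]
    exact d i

end Pool.Agent.P.MP_ae6ac5_an.FG
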