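import Mathlib

/-! Finite quotients of a free group in which all generators have a prescribed exponent. -/

namespace Pool.Agent.P.MP_ae6ac5_an.FG

open Finset Equiv

variable {α : Type} [Fintype α] [DecidableEq α] {R S : Type} [CommRing R] [CommRing S]

/-- the sum of the other coordinates -/
def ell (a : α) (v : α → R) : R := ∑ b ∈ univ.erase a, v b

theorem ell_update (a : α) (v : α → R) (t : R) : ell a (Function.update v a t) = ell a v :=
  sum_congr rfl fun _ hb => Function.update_of_ne (mem_erase.1 hb).1 _ _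

/-- a transvection -/
def tv (a : α) (k : R) : Perm (α → R) where
  toFun v := Function.update v a (v a + k * ell a v)
  invFun v := Function.update v a (v a - k * ell a v)
  left_inv v := by simp [ell_update]
  right_inv v := by simp [ell_update]

theorem tv_apply (a : α) (k : R) (v : α → R) :
    tv a k v = Function.update v a (v a + k * ell a v) := rfl

theorem tv_inv (a : α) (k : R) : (tv a k)⁻¹ = tv a (-k) := by
  ext v : 1
  rw [tv_apply, neg_mul, ← sub_eq_add_neg]
  rfl

theorem tv_pow (a : α) (k : R) (n : ℕ) : tv a k ^ n = tv a (n * k) := by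
  induction n with
  | zero => ext v : 1; simp [tv_apply]
  | succ n ih =>
    ext v : 1
    rw [pow_succ, ih, Perm.mul_apply, tv_apply, tv_apply, tv_apply, ell_update]
    simp only [Function.update_idem, Function.update_self]
    congr 1
    push_cast
    ring

variable (R) in
/-- the representation by transvections -/
def rho : FreeGroup α →* Perm (α → R) := FreeGroup.lift fun a => tv a 7

theorem rho_of (a : α) : rho R (FreeGroup.of a) = tv a 7 := FreeGroup.lift_apply_of

omit [Fintype α] [DecidableEq α] in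
theorem mk_cons (l : α × Bool) (L : List (α × Bool)) :
    FreeGroup.mk (l :: L) = cond l.2 (FreeGroup.of l.1) (FreeGroup.of l.1)⁻¹ * FreeGroup.mk L := by
  obtain ⟨a, _ | _⟩ := l <;> rfl

theorem rho_cons (a : α) (s : Bool) (L : List (α × Bool)) (v : α → R) :
    rho R (FreeGroup.mk ((a, s) :: L)) v =
      tv a (7 * cond s 1 (-1)) (rho R (FreeGroup.mk L) v) := by
  rw [mk_cons, map_mul, Perm.mul_apply]
  cases s <;> simp [rho, tv_inv]

theorem rho_cast (f : R →+* S) (L : List (α × Bool)) (v : α → R) :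
    rho S (FreeGroup.mk L) (f ∘ v) = f ∘ rho R (FreeGroup.mk L) v := by
  induction L with
  | nil => rw [← FreeGroup.one_eq_mk, map_one, map_one]; rfl
  | cons l L ih =>
    obtain ⟨a, s⟩ := l
    rw [rho_cons, rho_cons, ih, tv_apply, tv_apply, Function.comp_update]
    congr 1
    cases s <;> simp [ell, map_ofNat]

theorem step {A l S s : ℤ} (hs : s = 1 ∨ s = -1) (hS : 0 ≤ S)
    (h : (2 * S + |A| < 7 * |l|) ∨ (2 * S ≤ |A| ∧ 0 < s * A * l)) :
    2 * S ≤ |A + 7 * s * l| ∧ 0 < s * (A + 7 * s * l) * l := by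
  rcases hs with rfl | rfl <;> rcases h with h | ⟨h1, h2⟩ <;>
    rcases abs_cases A with h3 | h3 <;> rcases abs_cases l with h4 | h4 <;>
    refine ⟨?_, by nlinarith [h3.1, h3.2, h4.1, h4.2]⟩ <;> rw [le_abs] <;>
    first
      | (left; nlinarith [h3.1, h3.2, h4.1, h4.2])
      | (right; nlinarith [h3.1, h3.2, h4.1, h4.2])

theorem ping (h2 : 2 ≤ Fintype.card α) (L : List (α × Bool)) (a : α) (s : Bool)
    (hL : FreeGroup.IsReduced ((a, s) :: L)) :
    2 * ∑ b ∈ univ.erase a, |rho ℤ (FreeGroup.mk ((a, s) :: L)) 1 b| ≤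
        |rho ℤ (FreeGroup.mk ((a, s) :: L)) 1 a| ∧
      0 < cond s 1 (-1) * rho ℤ (FreeGroup.mk ((a, s) :: L)) 1 a *
        ell a (rho ℤ (FreeGroup.mk ((a, s) :: L)) 1) := by
  induction L generalizing a s with
  | nil =>
    rw [rho_cons, tv_apply, ell_update, Function.update_self,
      sum_congr rfl fun b hb => congrArg abs (Function.update_of_ne (mem_erase.1 hb).1 _ _)]
    refine step (by cases s <;> simp) (sum_nonneg fun _ _ => abs_nonneg _) (Or.inl ?_)
    rw [← FreeGroup.one_eq_mk, map_one (rho ℤ)]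
    simp only [ell, Perm.one_apply, Pi.one_apply, abs_one, sum_const, card_erase_of_mem (mem_univ a),
      card_univ, nsmul_eq_mul, mul_one, Nat.abs_cast]
    omega
  | cons l L ih =>
    obtain ⟨b, t⟩ := l
    rw [FreeGroup.isReduced_cons_cons] at hL
    obtain ⟨i1, i2⟩ := ih b t hL.2
    rw [rho_cons a, tv_apply, ell_update, Function.update_self,
      sum_congr rfl fun b hb => congrArg abs (Function.update_of_ne (mem_erase.1 hb).1 _ _)]
    refine step (by cases s <;> simp) (sum_nonneg fun _ _ => abs_nonneg _) ?_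
    generalize rho ℤ (FreeGroup.mk ((b, t) :: L)) 1 = v at i1 i2 ⊢
    by_cases hab : a = b
    · obtain rfl : s = t := hL.1 hab
      subst hab
      exact Or.inr ⟨i1, i2⟩
    · left
      have hb : b ∈ univ.erase a := mem_erase.2 ⟨Ne.symm hab, mem_univ _⟩
      have ha : a ∈ univ.erase b := mem_erase.2 ⟨hab, mem_univ _⟩
      have h0 : 0 < |v b| := abs_pos.2 fun h => by simp [h] at i2
      rw [← add_sum_erase _ _ ha, erase_right_comm] at i1
      rw [ell, ← add_sum_erase _ _ hb, ← add_sum_erase _ _ hb]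
      have h3 := abs_sum_le_sum_abs v ((univ.erase a).erase b)
      have h4 := abs_add_le (v b + ∑ c ∈ (univ.erase a).erase b, v c)
        (-∑ c ∈ (univ.erase a).erase b, v c)
      rw [add_neg_cancel_right, abs_neg] at h4
      linarith [abs_nonneg (v a)]

theorem rho_ne (h2 : 2 ≤ Fintype.card α) {w : FreeGroup α} (hw : w ≠ 1) : rho ℤ w 1 ≠ 1 := by
  intro h
  have h1 : FreeGroup.IsReduced w.toWord := FreeGroup.isReduced_toWord
  have h3 : FreeGroup.mk w.toWord = w := FreeGroup.mk_toWord
  rcases e : w.toWord with _ | ⟨⟨a, s⟩, L⟩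
  · exact hw (FreeGroup.toWord_eq_nil_iff.1 e)
  · rw [e] at h1 h3
    have := (ping h2 L a s h1).1
    rw [h3, h] at this
    simp only [Pi.one_apply, abs_one, sum_const, card_erase_of_mem (mem_univ a), card_univ,
      nsmul_eq_mul, mul_one] at this
    omega

/-- a finite quotient that detects `w`, of exponent coprime to `M` on the generators -/
theorem exists_rho (h2 : 2 ≤ Fintype.card α) {w : FreeGroup α} (hw : w ≠ 1) {M : ℕ}
    (hM : 0 < M) : ∃ p : ℕ, 2 ≤ p ∧ M.Coprime p ∧ rho (ZMod p) w ≠ 1 ∧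
      ∀ a : α, rho (ZMod p) (FreeGroup.of a) ^ p = 1 := by
  obtain ⟨b, hb⟩ := Function.ne_iff.1 (rho_ne h2 hw)
  have h0 : 0 < (rho ℤ w 1 b - 1).natAbs := Int.natAbs_pos.2 (sub_ne_zero.2 hb)
  have h1 := Nat.le_mul_of_pos_left (rho ℤ w 1 b - 1).natAbs hM
  refine ⟨M * (rho ℤ w 1 b - 1).natAbs + 1, by omega, by simp, fun h => ?_, fun a => ?_⟩
  · have h3 := rho_cast (Int.castRingHom (ZMod (M * (rho ℤ w 1 b - 1).natAbs + 1))) w.toWord 1
    rw [FreeGroup.mk_toWord, h] at h3
    have h4 := congrFun h3 b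
    simp only [Perm.one_apply, Function.comp_apply, Pi.one_apply, eq_intCast] at h4
    rw [eq_comm, ← sub_eq_zero, ← Int.cast_sub, ZMod.intCast_zmod_eq_zero_iff_dvd,
      Int.natCast_dvd] at h4
    have := Nat.le_of_dvd h0 h4
    omega
  · rw [rho_of, tv_pow, ZMod.natCast_self, zero_mul]
    ext v : 1
    simp [tv_apply]

end Pool.Agent.P.MP_ae6ac5_an.FG
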