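import Pool.Agent.P.MP_ae6ac5_an.FG.Bad
import Pool.Agent.P.MP_ae6ac5_an.FG.Res

/-! Quotients of a free group inside wreath products. -/

namespace Pool.Agent.P.MP_ae6ac5_an.FG

open Equiv
open scoped Classical

variable {α Ω : Type} {n : ℕ}

/-- the residues of the integers in `[lo, hi)` -/
def win (n lo hi : ℕ) : Set (ZMod n) := {s | ∃ a : ℕ, lo ≤ a ∧ a < hi ∧ s = a}

/-- the permutations that fix the first coordinate and are trivial over the complement of `T` -/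
def vt (Ω : Type) (T : Set (ZMod n)) : Subgroup (Perm (ZMod n × Ω)) where
  carrier := {g | ∀ z, (g z).1 = z.1 ∧ (z.1 ∉ T → g z = z)}
  one_mem' _ := ⟨rfl, fun _ => rfl⟩
  mul_mem' {g h} hg hh z := ⟨(hg _).1.trans (hh z).1, fun hz => by
    rw [Perm.mul_apply, (hh z).2 hz, (hg z).2 hz]⟩
  inv_mem' {g} hg z := ⟨by simpa using (hg (g⁻¹ z)).1.symm, fun hz => by
    rw [Perm.inv_eq_iff_eq, (hg z).2 hz]⟩

theorem vt_mono {T T' : Set (ZMod n)} (h : T ⊆ T') : vt Ω T ≤ vt Ω T' :=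
  fun _ hg z => ⟨(hg z).1, fun hz => (hg z).2 fun h' => hz (h h')⟩

theorem vt_conj {T : Set (ZMod n)} {g h : Perm (ZMod n × Ω)} (hg : g ∈ vt Ω Set.univ)
    (hh : h ∈ vt Ω T) : g * h * g⁻¹ ∈ vt Ω T := fun z => by
  have e := ((vt Ω Set.univ).inv_mem hg z).1
  refine ⟨(hg _).1.trans ((hh _).1.trans e), fun hz => ?_⟩
  rw [Perm.mul_apply, Perm.mul_apply, (hh _).2 (by rwa [e])]
  simp

theorem vt_disj {T T' : Set (ZMod n)} (h : Disjoint T T') {g : Perm (ZMod n × Ω)}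
    (hg : g ∈ vt Ω T) (hg' : g ∈ vt Ω T') : g = 1 := by
  ext z : 1
  by_cases hz : z.1 ∈ T
  · exact (hg' z).2 (Set.disjoint_left.1 h hz)
  · exact (hg z).2 hz

theorem win_disj {a b : ℕ} (h : b ≤ n) : Disjoint (win n a b) (win n 0 a) := by
  rw [Set.disjoint_left]
  rintro _ ⟨i, i1, i2, rfl⟩ ⟨j, -, j2, e⟩
  rw [ZMod.natCast_eq_natCast_iff', Nat.mod_eq_of_lt (by omega), Nat.mod_eq_of_lt (by omega)] at e
  omega

theorem card_vt [Finite Ω] (K : Subgroup (Perm (ZMod n × Ω))) (a l : ℕ) :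
    Nat.card ((vt Ω (win n a (a + l))).comap K.subtype) ≤ Nat.card (Fin l → Ω → Ω) := by
  refine Nat.card_le_card_of_injective
    (fun g i ω => ((g.1.1 : Perm (ZMod n × Ω)) (((a + i.1 : ℕ) : ZMod n), ω)).2) fun g h e => ?_
  ext z : 3
  by_cases hz : z.1 ∈ win n a (a + l)
  · obtain ⟨s, ω⟩ := z
    obtain ⟨j, j1, j2, rfl⟩ := hz
    have := congrFun (congrFun e ⟨j - a, by omega⟩) ω
    simp only [Nat.add_sub_cancel' j1] at this
    exact Prod.ext ((g.2 _).1.trans (h.2 _).1.symm) this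
  · exact ((g.2 z).2 hz).trans ((h.2 z).2 hz).symm

/-- the shift -/
def sh (n : ℕ) (g : Perm Ω) : Perm (ZMod n × Ω) := prodCongr (Equiv.addRight 1) g

/-- a permutation acting over a window only -/
noncomputable def ov (n l : ℕ) (g : Perm Ω) : Perm (ZMod n × Ω) :=
  prodCongrRight fun s => if s ∈ win n 0 l then g else 1

theorem sh_pow (g : Perm Ω) (k : ℕ) (z : ZMod n × Ω) :
    (sh n g ^ k) z = (z.1 + k, (g ^ k) z.2) := by
  induction k with
  | zero => simp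
  | succ k ih =>
    rw [pow_succ', pow_succ', Perm.mul_apply, ih]
    simp [sh, add_assoc]

theorem ov_pow (l : ℕ) (g : Perm Ω) (k : ℕ) : ov n l g ^ k = ov n l (g ^ k) := by
  induction k with
  | zero => ext ⟨s, ω⟩ : 1; simp [ov]
  | succ k ih =>
    ext ⟨s, ω⟩ : 1
    rw [pow_succ, ih, Perm.mul_apply]
    by_cases h : s ∈ win n 0 l <;> simp [ov, h, pow_succ]

theorem xs_mem (l : ℕ) (g h : Perm Ω) (j : ℕ) :
    xs (ov n l g) (sh n h) j ∈ vt Ω (win n j (j + l)) := by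
  intro z
  obtain ⟨⟨s, ω⟩, rfl⟩ := (sh n h ^ j).surjective z
  rw [xs, Perm.mul_apply, Perm.mul_apply, Perm.coe_inv, symm_apply_apply, sh_pow, sh_pow]
  refine ⟨rfl, fun hz => ?_⟩
  have : s ∉ win n 0 l := by
    rintro ⟨a, -, a2, rfl⟩
    exact hz ⟨a + j, by omega, by omega, by simp⟩
  simp [ov, this]

variable (ρ : FreeGroup α →* Perm Ω) (y : α)

/-- the homomorphism to the wreath product -/
noncomputable def wr (n l : ℕ) : FreeGroup α →* Perm (ZMod n × Ω) :=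
  FreeGroup.lift fun a => if a = y then sh n (ρ (FreeGroup.of a)) else ov n l (ρ (FreeGroup.of a))

theorem wr_gen (l : ℕ) (a : α) {b : ℕ} (hb : b < l) : ∃ c : ℕ, (c = b ∨ c = b + 1) ∧
    (a ≠ y → c = b) ∧ (a = y → c = b + 1) ∧
    ∀ ω, wr ρ y n l (FreeGroup.of a) (b, ω) = ((c : ZMod n), ρ (FreeGroup.of a) ω) := by
  rw [wr, FreeGroup.lift_apply_of]
  split_ifs with h
  · exact ⟨b + 1, Or.inr rfl, fun h' => absurd h h', fun _ => rfl, fun ω => by simp [sh]⟩
  · have : (b : ZMod n) ∈ win n 0 l := ⟨b, by omega, hb, rfl⟩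
    exact ⟨b, Or.inl rfl, fun _ => rfl, fun h' => absurd h' h, fun ω => by simp [ov, this]⟩

theorem wr_word (l : ℕ) (L : List (α × Bool)) (a : ℕ) (h1 : L.length ≤ a)
    (h2 : a + L.length < l) : ∃ b : ℕ, b ≤ a + L.length ∧ a ≤ b + L.length ∧
    ∀ ω, wr ρ y n l (FreeGroup.mk L) (a, ω) = ((b : ZMod n), ρ (FreeGroup.mk L) ω) := by
  induction L with
  | nil => exact ⟨a, by simp, by simp, fun ω => by rw [← FreeGroup.one_eq_mk]; simp⟩
  | cons x L ih =>
    rw [List.length_cons] at h1 h2 ⊢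
    obtain ⟨b, b1, b2, b3⟩ := ih (by omega) (by omega)
    obtain ⟨x, _ | _⟩ := x
    · obtain ⟨b', c, c1, c2, c3⟩ : ∃ b' c : ℕ, c = b ∧ (b' = b ∨ b' + 1 = b) ∧
          ∀ ω, wr ρ y n l (FreeGroup.of x) (b', ω) = ((c : ZMod n), ρ (FreeGroup.of x) ω) := by
        by_cases hx : x = y
        · obtain ⟨c, -, -, c3, c4⟩ := wr_gen (n := n) ρ y l x (b := b - 1) (by omega)
          exact ⟨b - 1, c, by have := c3 hx; omega, by omega, c4⟩
        · obtain ⟨c, -, c2, -, c4⟩ := wr_gen (n := n) ρ y l x (b := b) (by omega)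
          exact ⟨b, c, c2 hx, Or.inl rfl, c4⟩
      refine ⟨b', by omega, by omega, fun ω => ?_⟩
      rw [mk_cons, map_mul, map_mul, Perm.mul_apply, Perm.mul_apply, b3, cond_false, map_inv,
        map_inv, Perm.inv_eq_iff_eq, c3, c1]
      simp
    · obtain ⟨c, c1, -, -, c4⟩ := wr_gen (n := n) ρ y l x (b := b) (by omega)
      refine ⟨c, by omega, by omega, fun ω => ?_⟩
      rw [mk_cons, map_mul, map_mul, Perm.mul_apply, Perm.mul_apply, b3, cond_true, c4]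

theorem wr_ne {w : FreeGroup α} (hw : ρ w ≠ 1) : ∃ l, ∀ n, wr ρ y n l w ≠ 1 := by
  refine ⟨2 * w.toWord.length + 1, fun n h => hw ?_⟩
  obtain ⟨b, -, -, b3⟩ := wr_word (n := n) ρ y (2 * w.toWord.length + 1) w.toWord
    w.toWord.length le_rfl (by omega)
  rw [FreeGroup.mk_toWord, h] at b3
  ext ω : 1
  exact (congrArg Prod.snd (b3 ω)).symm

theorem wr_pow (l : ℕ) (h : ∀ a, ρ (FreeGroup.of a) ^ n = 1) (a : α) :
    wr ρ y n l (FreeGroup.of a) ^ n = 1 := by
  rw [wr, FreeGroup.lift_apply_of]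
  split_ifs
  · ext z : 1
    rw [sh_pow, h]
    simp
  · rw [ov_pow, h]
    ext ⟨s, ω⟩ : 1
    simp [ov]

theorem wr_bad [Finite Ω] [NeZero n] {x : α} (hx : x ≠ y) (l r : ℕ) (hr : r * l ≤ n) :
    Bad ((wr ρ y n l).rangeRestrict (FreeGroup.of x)) ((wr ρ y n l).rangeRestrict (FreeGroup.of y))
      (1 - (1 - (Nat.card (Fin l → Ω → Ω) : ℝ)⁻¹) ^ r) := by
  have hxs : ∀ j, xs ((wr ρ y n l).rangeRestrict (FreeGroup.of x))
      ((wr ρ y n l).rangeRestrict (FreeGroup.of y)) j ∈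
      (vt Ω (win n j (j + l))).comap (wr ρ y n l).range.subtype := fun j => by
    rw [Subgroup.mem_comap, map_xs]
    have e1 : wr ρ y n l (FreeGroup.of x) = ov n l (ρ (FreeGroup.of x)) := by
      rw [wr, FreeGroup.lift_apply_of, if_neg hx]
    have e2 : wr ρ y n l (FreeGroup.of y) = sh n (ρ (FreeGroup.of y)) := by
      rw [wr, FreeGroup.lift_apply_of, if_pos rfl]
    simp only [Subgroup.coe_subtype, MonoidHom.coe_rangeRestrict, e1, e2]
    exact xs_mem _ _ _ _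
  refine bad_of_family ((vt Ω Set.univ).comap (wr ρ y n l).range.subtype)
    (fun i => (vt Ω (win n (i * l) (i * l + l))).comap (wr ρ y n l).range.subtype)
    (fun i => (vt Ω (win n 0 (i * l))).comap (wr ρ y n l).range.subtype) _ r
    (fun k => vt_mono (Set.subset_univ _) (hxs k)) (fun i g hg h hh => vt_conj hg hh)
    (fun i => ⟨_, hxs _⟩) (fun i => card_vt _ _ _)
    (fun i => Subgroup.comap_mono (vt_mono (Set.subset_univ _)))
    (fun i => Subgroup.comap_mono (vt_mono ?_)) (fun i => Subgroup.comap_mono (vt_mono ?_))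
    fun i hi g h1 h2 => Subtype.ext (vt_disj (win_disj ?_) h1 h2)
  · rintro _ ⟨a, a1, a2, rfl⟩
    exact ⟨a, a1, by rw [add_mul]; omega, rfl⟩
  · rintro _ ⟨a, a1, a2, rfl⟩
    exact ⟨a, by omega, by rw [add_mul]; omega, rfl⟩
  · have := Nat.mul_le_mul_right l (Nat.succ_le_of_lt hi)
    rw [Nat.succ_mul] at this
    omega

end Pool.Agent.P.MP_ae6ac5_an.FG
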